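import Mathlib
import Pool.Agent.Lib.MP_dd8a4a_al.Main

namespace Pool.Agent.Results.MP_dd8a4a_al.LargePrimes

theorem result :
    ∃ f q₀ : ℕ → ℕ → ℕ, ∀ (p n : ℕ), p.Prime →
      ∀ (G : Type) [Group G], Group.IsNilpotent G → (∀ g : G, IsOfFinOrder g) →
        (∀ g : G, (orderOf g).Prime → q₀ p n ≤ orderOf g) →
        ∀ φ : MulAut G, orderOf φ = p ^ n → (∀ g : G, φ g = g → g = 1) →
          derivedSeries G (f p n) = ⊥ := by
  have h : ∀ p n : ℕ, ∃ f q₀ : ℕ, p.Prime →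
      ∀ (G : Type) [Group G], Group.IsNilpotent G → (∀ g : G, IsOfFinOrder g) →
        (∀ g : G, (orderOf g).Prime → q₀ ≤ orderOf g) →
        ∀ φ : MulAut G, orderOf φ = p ^ n → (∀ g : G, φ g = g → g = 1) →
          derivedSeries G f = ⊥ := by
    intro p n
    by_cases hp : p.Prime
    · obtain ⟨f, q₀, h⟩ := Pool.Agent.Lib.MP_dd8a4a_al.main_thm.{0} p n hp
      exact ⟨f, q₀, fun _ G _ h1 h2 h3 φ h4 h5 =>
        h G h1 h2 h3 φ (by rw [← h4, pow_orderOf_eq_one]) h5⟩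
    · exact ⟨0, 0, fun h => absurd h hp⟩
  choose f q₀ h using h
  exact ⟨f, q₀, h⟩

end Pool.Agent.Results.MP_dd8a4a_al.LargePrimes
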